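import Pool.Agent.helper32.EB.Defs2

open MeasureTheory ProbabilityTheory Filter Topology
open scoped ENNReal NNReal

namespace Pool.Agent.helper32.EB

/-! ### JE: the eigenvalue is a measurable function of the path -/

theorem JE_mono {K K' : Set ℂ} (h : K ⊆ K') : lam1 K ≤ lam1 K' := by
  unfold lam1
  refine le_iInf₂ fun f hf => ?_
  have hf' : Adm K f := ⟨hf.smooth, hf.per1, hf.perI, fun z hz => hf.van z (h hz), hf.nz⟩
  exact iInf₂_le_of_le f hf' le_rfl

/-- closed set with index `F`: the union of the closures of finitely many basic open sets -/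
def JE_C (F : Finset (TopologicalSpace.countableBasis ℂ)) : Set ℂ := ⋃ U ∈ F, closure (U : Set ℂ)

theorem JE_closed (F : Finset (TopologicalSpace.countableBasis ℂ)) : IsClosed (JE_C F) :=
  isClosed_biUnion_finset fun _ _ => isClosed_closure

theorem JE_cover (K : Set ℂ) (hK : IsCompact K) (f : ℂ → ℝ) (hf : Adm K f) :
    ∃ F : Finset (TopologicalSpace.countableBasis ℂ), K ⊆ JE_C F ∧ Adm (JE_C F) f := by
  have hb := TopologicalSpace.isBasis_countableBasis ℂ
  have h1 : ∀ z ∈ K, ∃ U : TopologicalSpace.countableBasis ℂ, z ∈ (U : Set ℂ) ∧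
      closure (U : Set ℂ) ⊆ interior {z | f z = 0} := by
    intro z hz
    have h2 : interior {z | f z = 0} ∈ 𝓝 z :=
      isOpen_interior.mem_nhds (mem_interior_iff_mem_nhds.2 (hf.van z hz))
    obtain ⟨V, hVz, hVc, hV⟩ := exists_mem_nhds_isClosed_subset h2
    obtain ⟨U, hU, hzU, hUV⟩ := hb.mem_nhds_iff.1 hVz
    exact ⟨⟨U, hU⟩, hzU, (closure_minimal hUV hVc).trans hV⟩
  choose U hzU hUf using h1
  obtain ⟨t, htK⟩ := hK.elim_nhds_subcover' (fun z hz => (U z hz : Set ℂ)) (fun z hz =>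
    (TopologicalSpace.isOpen_of_mem_countableBasis (U z hz).2).mem_nhds (hzU z hz))
  classical
  refine ⟨t.image (fun z : K => U z.1 z.2), ?_, hf.smooth, hf.per1, hf.perI, ?_, hf.nz⟩
  · intro z hz
    obtain ⟨w, hw, hzw⟩ := Set.mem_iUnion₂.1 (htK hz)
    exact Set.mem_iUnion₂.2 ⟨U w.1 w.2, Finset.mem_image.2 ⟨w, hw, rfl⟩, subset_closure hzw⟩
  · intro z hz
    obtain ⟨V, hV, hzV⟩ := Set.mem_iUnion₂.1 hz
    obtain ⟨w, hw, rfl⟩ := Finset.mem_image.1 hV
    exact mem_interior_iff_mem_nhds.1 (hUf w.1 w.2 hzV)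

theorem JE_lam (K : Set ℂ) (hK : IsCompact K) :
    lam1 K = ⨅ F : Finset (TopologicalSpace.countableBasis ℂ),
      ⨅ _ : K ⊆ JE_C F, lam1 (JE_C F) := by
  refine le_antisymm (le_iInf₂ fun F hF => JE_mono hF) ?_
  conv_rhs => unfold lam1
  refine le_iInf₂ fun f hf => ?_
  obtain ⟨F, hF, hFf⟩ := JE_cover K hK f hf
  refine iInf₂_le_of_le F hF ?_
  unfold lam1
  exact iInf₂_le_of_le f hFf le_rfl

theorem JE_trace {Ω : Type*} {B₁ B₂ : ℝ≥0 → Ω → ℝ} (s : ℝ≥0) (ω : Ω)
    (h : Continuous (fun t => bm B₁ B₂ t ω)) : IsCompact (trace B₁ B₂ s ω) := by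
  have h1 : trace B₁ B₂ s ω = (fun t => bm B₁ B₂ t ω) '' Set.Iic s := by
    ext z
    simp only [trace, Set.mem_ofPred_eq, Set.mem_image, Set.mem_Iic]
    constructor
    · rintro ⟨t, ht, rfl⟩; exact ⟨t, by exact_mod_cast ht, rfl⟩
    · rintro ⟨t, ht, rfl⟩; exact ⟨t, by exact_mod_cast ht, rfl⟩
  rw [h1]
  have h2 : IsCompact (Set.Iic s) := by
    have : Set.Iic s = Set.Icc 0 s := by ext t; simp
    rw [this]; exact isCompact_Icc
  exact h2.image h

theorem lam1_aemeas {Ω : Type*} [MeasurableSpace Ω] {P : Measure Ω} {B₁ B₂ : ℝ≥0 → Ω → ℝ}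
    (hB : IsBM2 P B₁ B₂) (s : ℝ) : AEMeasurable (fun ω => lam1 (trace B₁ B₂ s ω)) P := by
  rcases lt_or_ge s 0 with hs | hs
  · have : (fun ω => lam1 (trace B₁ B₂ s ω)) = fun _ => lam1 ∅ := by
      funext ω
      congr 1
      ext z
      simp only [trace, Set.mem_ofPred_eq, Set.mem_empty_iff_false, iff_false, not_exists, not_and]
      intro t ht
      exact absurd (t.2.trans ht) (not_le.2 hs)
    rw [this]; exact aemeasurable_const
  lift s to ℝ≥0 using hs
  -- a countable dense set of times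
  have hdense : ∃ D : Set ℝ≥0, D.Countable ∧ D ⊆ Set.Iic s ∧ Set.Iic s ⊆ closure D := by
    obtain ⟨D, hD, hDc, hDd⟩ := TopologicalSpace.IsSeparable.exists_countable_dense_subset
      (TopologicalSpace.IsSeparable.of_separableSpace (Set.Iic s))
    exact ⟨D, hDc, hD, hDd⟩
  obtain ⟨D, hDc, hDs, hDd⟩ := hdense
  have hmeas : ∀ t, Measurable (bm B₁ B₂ t) := by
    intro t
    have h1 := hB.meas1 t
    have h2 := hB.meas2 t
    have h3 : bm B₁ B₂ t = fun ω => Complex.equivRealProdCLM.symm (√2 * B₁ t ω, √2 * B₂ t ω) := by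
      funext ω
      apply Complex.ext <;> simp [bm]
    rw [h3]
    exact Complex.equivRealProdCLM.symm.continuous.measurable.comp
      ((h1.const_mul _).prodMk (h2.const_mul _))
  set S : Finset (TopologicalSpace.countableBasis ℂ) → Set Ω :=
    fun F => ⋂ t ∈ D, {ω | bm B₁ B₂ t ω ∈ JE_C F} with hS
  have hSm : ∀ F, MeasurableSet (S F) := fun F =>
    MeasurableSet.biInter hDc fun t _ => (hmeas t) (JE_closed F).measurableSet
  have : Countable (TopologicalSpace.countableBasis ℂ) :=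
    (TopologicalSpace.countable_countableBasis ℂ).to_subtype
  classical
  refine ⟨fun ω => ⨅ F : Finset (TopologicalSpace.countableBasis ℂ),
    (if ω ∈ S F then lam1 (JE_C F) else ⊤), ?_, ?_⟩
  · exact Measurable.iInf fun F => Measurable.ite (hSm F) measurable_const measurable_const
  · filter_upwards [hB.bm1.cont, hB.bm2.cont] with ω h1 h2
    have hc : Continuous (fun t => bm B₁ B₂ t ω) := by
      have h3 : (fun t => bm B₁ B₂ t ω) =
          fun t => Complex.equivRealProdCLM.symm (√2 * B₁ t ω, √2 * B₂ t ω) := by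
        funext t
        apply Complex.ext <;> simp [bm]
      rw [h3]
      exact Complex.equivRealProdCLM.symm.continuous.comp
        ((continuous_const.mul h1).prodMk (continuous_const.mul h2))
    rw [JE_lam _ (JE_trace s ω hc)]
    refine iInf_congr fun F => ?_
    have hiff : trace B₁ B₂ s ω ⊆ JE_C F ↔ ω ∈ S F := by
      constructor
      · intro h
        refine Set.mem_iInter₂.2 fun t ht => h ⟨t, ?_, rfl⟩
        exact_mod_cast hDs ht
      · rintro h z ⟨t, ht, rfl⟩
        have h3 : D ⊆ (fun t => bm B₁ B₂ t ω) ⁻¹' (JE_C F) := fun t ht => Set.mem_iInter₂.1 h t ht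
        have h4 := closure_minimal h3 ((JE_closed F).preimage hc)
        exact h4 (hDd (by exact_mod_cast ht))
    by_cases h : ω ∈ S F
    · rw [if_pos h]
      have h' := hiff.2 h
      simp [h']
    · rw [if_neg h]
      have h' : ¬ trace B₁ B₂ s ω ⊆ JE_C F := fun h' => h (hiff.1 h')
      simp [h']

end Pool.Agent.helper32.EB
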