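import Pool.Agent.helper17.BT.NE
import Pool.Agent.helper17.BT.KB
import Pool.Agent.helper17.BT.VE
import Pool.Agent.helper4.BT.VD
import Pool.Agent.helper29.BT.PB
import Pool.Agent.helper97.BT.VB

open MeasureTheory ProbabilityTheory Filter Topology
open scoped ENNReal NNReal

namespace Pool.Agent.helper32.EB

/-- centres of the regions -/
noncomputable def JA_o (Q : ℕ) (i : Fin (Q * Q)) : ℂ :=
  ⟨((((i : ℕ) / Q : ℕ) : ℝ) + 1 / 2) / Q, ((((i : ℕ) % Q : ℕ) : ℝ) + 1 / 2) / Q⟩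

theorem JA_frac (Q : ℕ) (hQ : 0 < Q) (a b : ℕ) (ha : a < Q) (hb : b < Q) (hab : a ≠ b) (x : ℝ)
    (hx : x = ((a : ℝ) + 1 / 2) / Q - ((b : ℝ) + 1 / 2) / Q) : 1 / (Q : ℝ) ≤ |x - round x| := by
  have hQ' : (0 : ℝ) < Q := by exact_mod_cast hQ
  have h1 : x - round x = (((a : ℤ) - b - round x * Q : ℤ) : ℝ) / Q := by
    rw [hx]; push_cast; field_simp; ring
  rw [h1, abs_div, abs_of_pos hQ']
  refine div_le_div_of_nonneg_right ?_ hQ'.le
  have h2 : ((a : ℤ) - b - round x * Q) ≠ 0 := by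
    intro h
    have h3 : (a : ℤ) - b = round x * Q := by linarith
    have h4 : (Q : ℤ) ∣ (a : ℤ) - b := ⟨round x, by rw [h3]; ring⟩
    have h5 : |(a : ℤ) - b| < Q := by
      rw [abs_lt]; constructor <;> omega
    have h6 := Int.eq_zero_of_abs_lt_dvd h4 h5
    apply hab; omega
  have h3 : (1 : ℤ) ≤ |((a : ℤ) - b - round x * Q)| := Int.one_le_abs h2
  have h4 : ((1 : ℤ) : ℝ) ≤ ((|((a : ℤ) - b - round x * Q)| : ℤ) : ℝ) := by exact_mod_cast h3
  rw [Int.cast_abs] at h4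
  simpa using h4

theorem JA_half (Q : ℕ) (hQ : 0 < Q) (a : ℕ) (x : ℝ) (hx : x = -(((a : ℝ) + 1 / 2) / Q)) :
    1 / (2 * Q : ℝ) ≤ |x - round x| := by
  have hQ' : (0 : ℝ) < Q := by exact_mod_cast hQ
  have h1 : x - round x = ((-(2 * (a : ℤ) + 1 + 2 * round x * Q) : ℤ) : ℝ) / (2 * Q) := by
    rw [hx]; push_cast; field_simp; ring
  rw [h1, abs_div, abs_of_pos (by positivity : (0 : ℝ) < 2 * Q)]
  refine div_le_div_of_nonneg_right ?_ (by positivity)
  have h2 : (-(2 * (a : ℤ) + 1 + 2 * round x * Q)) ≠ 0 := by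
    intro h
    have h3 : 2 * ((a : ℤ) + round x * Q) = -1 := by linarith
    omega
  have h3 : (1 : ℤ) ≤ |(-(2 * (a : ℤ) + 1 + 2 * round x * Q))| := Int.one_le_abs h2
  have h4 : ((1 : ℤ) : ℝ) ≤ ((|(-(2 * (a : ℤ) + 1 + 2 * round x * Q))| : ℤ) : ℝ) := by
    exact_mod_cast h3
  rw [Int.cast_abs] at h4
  simpa using h4

theorem JA_dist (Q : ℕ) (i j : Fin (Q * Q)) (hij : i ≠ j) :
    1 / (Q : ℝ) ≤ ‖disp (JA_o Q i - JA_o Q j)‖ := by
  have hQ : 0 < Q := by
    rcases Nat.eq_zero_or_pos Q with h | h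
    · subst h; exact absurd i.2 (by simp)
    · exact h
  have hne : (i : ℕ) / Q ≠ (j : ℕ) / Q ∨ (i : ℕ) % Q ≠ (j : ℕ) % Q := by
    by_contra hc
    rw [not_or, not_not, not_not] at hc
    apply hij; apply Fin.ext
    rw [← Nat.div_add_mod (i : ℕ) Q, ← Nat.div_add_mod (j : ℕ) Q, hc.1, hc.2]
  rcases hne with h | h
  · refine le_trans ?_ (Complex.abs_re_le_norm _)
    exact JA_frac Q hQ _ _ (Nat.div_lt_of_lt_mul i.2) (Nat.div_lt_of_lt_mul j.2) h _ rfl
  · refine le_trans ?_ (Complex.abs_im_le_norm _)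
    exact JA_frac Q hQ _ _ (Nat.mod_lt _ hQ) (Nat.mod_lt _ hQ) h _ rfl

theorem JA_start (Q : ℕ) (i : Fin (Q * Q)) :
    1 / (2 * Q : ℝ) ≤ ‖disp (0 - JA_o Q i)‖ := by
  have hQ : 0 < Q := by
    rcases Nat.eq_zero_or_pos Q with h | h
    · subst h; exact absurd i.2 (by simp)
    · exact h
  refine le_trans ?_ (Complex.abs_re_le_norm _)
  refine JA_half Q hQ ((i : ℕ) / Q) _ ?_
  simp [JA_o]

theorem JA_main {Ω : Type*} [MeasurableSpace Ω] {P : Measure Ω} [IsProbabilityMeasure P]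
    (G : Geo) (hG : G.OK) {ν : Measure ℂ} (hν : RotStep ν G.h) {Y : ℕ → Ω → ℂ}
    (hY : IID P ν Y) (Q : ℕ) (hQ : 3 * G.R' ≤ 1 / (Q : ℝ)) (n N : ℕ) (e : ℝ≥0∞)
    (hdead : ∀ i : Fin (Q * Q), P {ω | rstate G (JA_o Q i) n (walk 0 (fun k => Y k ω)) N = none} ≤ e) :
    P {ω | ∀ x : ℂ, ∃ k ≤ N, ‖disp (walk 0 (fun k => Y k ω) k - x)‖ ≤ G.ρ} ≤
      (Q * Q : ℕ) * e + (Vv G ν n Finset.univ) ^ (Q * Q) := by
  have hh := hG.hpos
  have hρR : G.ρ ≤ G.r / 4 := by
    have h1 : ∀ k, k ≤ G.K → 0 < G.R k := by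
      intro k hk
      induction' hd : G.K - k with d ih generalizing k
      · have : k = G.K := by omega
        rw [this, hG.RK]; linarith [hG.hρ]
      · have := hG.dec k (by omega)
        have := ih (k + 1) (by omega) (by omega)
        linarith
    have h2 : ∀ k, k ≤ G.K → 1 ≤ k → G.R k ≤ G.r / 4 := by
      intro k hk hk1
      induction k with
      | zero => omega
      | succ k ih =>
        have h3 := hG.dec k (by omega)
        rcases Nat.eq_zero_or_pos k with h | h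
        · subst h; rw [hG.R0] at h3; linarith
        · have := ih (by omega) h
          have := h1 (k + 1) hk
          linarith
    rw [← hG.RK]
    exact h2 G.K le_rfl (by have := hG.K6; omega)
  have hρ0 : 0 < G.ρ := by linarith [hG.hρ]
  have hr0 : 0 < G.r := by linarith
  have hR' := hG.big
  have hsep : Sep G (JA_o Q) := by
    rintro i j hij z ⟨h1, h2⟩
    have h3 := JA_dist Q i j hij
    have h4 := disp_norm_add (z - JA_o Q j) (-(z - JA_o Q i))
    have h5 : ‖disp (JA_o Q i - JA_o Q j)‖ ≤ ‖disp (z - JA_o Q j)‖ + ‖disp (z - JA_o Q i)‖ := by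
      have h6 : JA_o Q i - JA_o Q j = (z - JA_o Q j) + -(z - JA_o Q i) := by ring
      have h7 : disp ((z - JA_o Q j) + -(z - JA_o Q i)) =
          disp ((z - JA_o Q j) + disp (-(z - JA_o Q i))) := by
        rw [add_comm (z - JA_o Q j) (disp _), disp_disp_add, add_comm]
      rw [h6, h7, ← disp_norm_neg (z - JA_o Q i)]
      exact disp_norm_add _ _
    have h8 := hG.hρ
    linarith
  have hz0 : ∀ i, G.r < ‖disp (0 - JA_o Q i)‖ := by
    intro i
    have h1 := JA_start Q i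
    have h2 : 1 / (2 * Q : ℝ) = (1 / Q) / 2 := by rw [div_div, mul_comm]
    rw [h2] at h1
    linarith
  have hsub : {ω | ∀ x : ℂ, ∃ k ≤ N, ‖disp (walk 0 (fun k => Y k ω) k - x)‖ ≤ G.ρ} ⊆
      (⋃ i : Fin (Q * Q), {ω | rstate G (JA_o Q i) n (walk 0 (fun k => Y k ω)) N = none}) ∪
      {ω | ∀ i, ∃ b m, rstate G (JA_o Q i) n (walk 0 (fun k => Y k ω)) N = some (b, m, ∅)} := by
    intro ω hω
    by_cases hd : ∃ i : Fin (Q * Q), rstate G (JA_o Q i) n (walk 0 (fun k => Y k ω)) N = none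
    · exact Or.inl (Set.mem_iUnion.2 hd)
    · rw [not_exists] at hd
      refine Or.inr fun i => ?_
      refine visits G hG (JA_o Q i) n (walk 0 (fun k => Y k ω)) N ?_ ?_ (hd i)
      · have : walk 0 (fun k => Y k ω) 0 = 0 := by simp [walk]
        rw [this]; exact hz0 i
      · intro j
        obtain ⟨k, hk, hkx⟩ := hω (JA_o Q i + G.x j)
        refine ⟨k, hk, ?_⟩
        have h1 := disp_add_small (walk 0 (fun k => Y k ω) k - (JA_o Q i + G.x j)) (G.x j) (by
          have := hG.xs j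
          have := hG.small
          linarith)
        have h2 : walk 0 (fun k => Y k ω) k - (JA_o Q i + G.x j) + G.x j =
            walk 0 (fun k => Y k ω) k - JA_o Q i := by ring
        rw [h2] at h1
        rw [h1, add_sub_cancel_right]
        exact hkx
  calc P _ ≤ P (⋃ i : Fin (Q * Q),
          {ω | rstate G (JA_o Q i) n (walk 0 (fun k => Y k ω)) N = none}) +
        P {ω | ∀ i, ∃ b m, rstate G (JA_o Q i) n (walk 0 (fun k => Y k ω)) N = some (b, m, ∅)} :=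
        (measure_mono hsub).trans (measure_union_le _ _)
    _ ≤ (Q * Q : ℕ) * e + (Vv G ν n Finset.univ) ^ (Q * Q) := by
        refine add_le_add ?_ (engine G hG hν hY (JA_o Q) hsep 0 hz0 n N)
        refine (measure_iUnion_le _).trans ?_
        rw [tsum_fintype]
        refine (Finset.sum_le_card_nsmul _ _ e fun i _ => hdead i).trans ?_
        rw [Finset.card_univ, Fintype.card_fin, nsmul_eq_mul]

/-! ### JA -/

theorem JA_num (ζ : ℝ) (hζ : 0 < ζ) (hζ' : ζ ≤ 1 / 2000) : ∀ᶠ L : ℝ in atTop,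
    0 < L ∧ ((⌊Real.exp (99 * ζ * L) / 3⌋₊ * ⌊Real.exp (99 * ζ * L) / 3⌋₊ : ℕ) : ℝ) *
      Real.exp (-10 * L) + Real.exp (-(Real.exp (-10 * ζ * L) *
        ((⌊Real.exp (99 * ζ * L) / 3⌋₊ * ⌊Real.exp (99 * ζ * L) / 3⌋₊ : ℕ) : ℝ))) ≤
      Real.exp (-4 * L) := by
  have h1 : Tendsto (fun L : ℝ => Real.exp (188 * ζ * L) / (188 * ζ * L)) atTop atTop := by
    have h2 : Tendsto (fun L : ℝ => 188 * ζ * L) atTop atTop :=
      Tendsto.const_mul_atTop (by positivity) tendsto_id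
    have h3 := (Real.tendsto_exp_div_pow_atTop 1).comp h2
    refine h3.congr fun L => ?_
    simp
  have h4 : Tendsto (fun L : ℝ => Real.exp (99 * ζ * L)) atTop atTop :=
    Real.tendsto_exp_atTop.comp (Tendsto.const_mul_atTop (by positivity) tendsto_id)
  filter_upwards [eventually_ge_atTop 1, h4.eventually (eventually_ge_atTop 12),
    h1.eventually (eventually_ge_atTop (16 * 9 / (188 * ζ)))] with L hL hexp hbig
  have hL0 : 0 < L := by linarith
  refine ⟨hL0, ?_⟩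
  set Q := ⌊Real.exp (99 * ζ * L) / 3⌋₊ with hQ
  have hQ1 : (Q : ℝ) ≤ Real.exp (99 * ζ * L) / 3 := Nat.floor_le (by positivity)
  have hQ2 : Real.exp (99 * ζ * L) / 4 ≤ Q := by
    have := Nat.lt_floor_add_one (Real.exp (99 * ζ * L) / 3)
    rw [← hQ] at this
    linarith
  have hQ0 : (0 : ℝ) ≤ Q := Nat.cast_nonneg _
  have hup : ((Q * Q : ℕ) : ℝ) ≤ Real.exp (L) := by
    push_cast
    calc (Q : ℝ) * Q ≤ Real.exp (99 * ζ * L) / 3 * (Real.exp (99 * ζ * L) / 3) :=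
          mul_le_mul hQ1 hQ1 hQ0 (by positivity)
      _ ≤ Real.exp (99 * ζ * L) * Real.exp (99 * ζ * L) := by
          have := Real.exp_pos (99 * ζ * L)
          nlinarith
      _ = Real.exp (198 * ζ * L) := by rw [← Real.exp_add]; ring_nf
      _ ≤ Real.exp L := by
          refine Real.exp_le_exp.2 ?_
          have : 198 * ζ ≤ 1 := by linarith
          nlinarith
  have hlow : Real.exp (198 * ζ * L) / 16 ≤ ((Q * Q : ℕ) : ℝ) := by
    push_cast
    calc Real.exp (198 * ζ * L) / 16 = Real.exp (99 * ζ * L) / 4 * (Real.exp (99 * ζ * L) / 4) := by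
          rw [div_mul_div_comm, ← Real.exp_add]; ring_nf
      _ ≤ Q * Q := mul_le_mul hQ2 hQ2 (by positivity) hQ0
  have h5 : 9 * L ≤ Real.exp (-10 * ζ * L) * ((Q * Q : ℕ) : ℝ) := by
    have h6 : Real.exp (-10 * ζ * L) * (Real.exp (198 * ζ * L) / 16) =
        Real.exp (188 * ζ * L) / 16 := by
      rw [← mul_div_assoc, ← Real.exp_add]; ring_nf
    have h7 : 16 * 9 * L ≤ Real.exp (188 * ζ * L) := by
      have h8 : 0 < 188 * ζ * L := by positivity
      rw [le_div_iff₀ h8] at hbig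
      have h9 : 16 * 9 / (188 * ζ) * (188 * ζ * L) = 16 * 9 * L := by
        field_simp
      linarith
    calc 9 * L ≤ Real.exp (188 * ζ * L) / 16 := by linarith
      _ = Real.exp (-10 * ζ * L) * (Real.exp (198 * ζ * L) / 16) := h6.symm
      _ ≤ _ := mul_le_mul_of_nonneg_left hlow (Real.exp_pos _).le
  have h10 : Real.exp (-(Real.exp (-10 * ζ * L) * ((Q * Q : ℕ) : ℝ))) ≤ Real.exp (-9 * L) :=
    Real.exp_le_exp.2 (by linarith)
  have h11 : ((Q * Q : ℕ) : ℝ) * Real.exp (-10 * L) ≤ Real.exp (-9 * L) := by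
    calc ((Q * Q : ℕ) : ℝ) * Real.exp (-10 * L) ≤ Real.exp L * Real.exp (-10 * L) :=
          mul_le_mul_of_nonneg_right hup (Real.exp_pos _).le
      _ = Real.exp (-9 * L) := by rw [← Real.exp_add]; ring_nf
  have h12 : Real.exp (-9 * L) = Real.exp (-4 * L) * Real.exp (-5 * L) := by
    rw [← Real.exp_add]; ring_nf
  have h13 : Real.exp (-5 * L) ≤ 1 / 2 := by
    have h14 : Real.exp (-5 * L) ≤ Real.exp (-1) := Real.exp_le_exp.2 (by linarith)
    have h15 : Real.exp (-1) ≤ 1 / 2 := by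
      rw [Real.exp_neg, one_div]
      refine inv_anti₀ (by norm_num) ?_
      have := Real.add_one_le_exp (1 : ℝ)
      linarith
    linarith
  have h16 := Real.exp_pos (-4 * L)
  nlinarith

theorem walk_cover_small {Ω : Type*} [MeasurableSpace Ω] {P : Measure Ω}
    [IsProbabilityMeasure P] (γ : ℝ) (hγ : 0 < γ) (hγ1 : γ < 1) :
    ∀ᶠ L : ℝ in atTop, ∀ Y : ℕ → Ω → ℂ, IID P (stepLaw (pδ L) (ph L)) Y → ∀ N : ℕ,
      (N : ℝ) * Real.exp (-3 * L) ≤ γ * L ^ 2 / Real.pi + 1 →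
      P {ω | ∀ x : ℂ, ∃ k ≤ N, ‖disp (walk 0 (fun k => Y k ω) k - x)‖ ≤ 2 * Real.exp (-L)} ≤
        ENNReal.ofReal (Real.exp (-4 * L)) := by
  set γA := γ * (1 + (1 - γ) / 4) with hγA
  have h1γ : 0 < 1 - γ := by linarith
  have hγA0 : 0 < γA := by positivity
  have hγA1 : γA < 1 := by rw [hγA]; nlinarith
  set ζ := min (1 / 2000) (min (γ * ((1 - γ) / 4) ^ 2 / 20000) ((1 - γA) / 300)) with hζd
  have hζ : 0 < ζ := by
    rw [hζd]
    refine lt_min (by norm_num) (lt_min (by positivity) ?_)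
    linarith
  have hζ' : ζ ≤ 1 / 2000 := min_le_left _ _
  have hζγ : ζ ≤ γ * ((1 - γ) / 4) ^ 2 / 20000 := (min_le_right _ _).trans (min_le_left _ _)
  have hζA : ζ ≤ (1 - γA) / 300 := (min_le_right _ _).trans (min_le_right _ _)
  obtain ⟨K, hK6, hV⟩ := V_small ζ γA hζ hζ' hγA0 (by linarith)
  have hD := dead_small (P := P) γ ζ hγ hγ1 hζ hζ' hζγ K hK6
  filter_upwards [hV, hD, JA_num ζ hζ hζ'] with L hV hD hnum Y hY N hN
  obtain ⟨hOK, hV⟩ := hV
  obtain ⟨hL0, hnum⟩ := hnum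
  set Q := ⌊Real.exp (99 * ζ * L) / 3⌋₊ with hQ
  have hph : 0 < ph L := Real.exp_pos _
  have hpδ : 0 < pδ L := Real.toNNReal_pos.2 (Real.exp_pos _)
  have hν : RotStep (stepLaw (pδ L) (ph L)) (geoL ζ K L).h := stepLaw_rot _ hpδ _ hph
  have hQ1 : (Q : ℝ) ≤ Real.exp (99 * ζ * L) / 3 := Nat.floor_le (by positivity)
  have hR' : (geoL ζ K L).R' = Real.exp (-99 * ζ * L) := rfl
  have hee : Real.exp (-99 * ζ * L) * Real.exp (99 * ζ * L) = 1 := by
    rw [← Real.exp_add]; ring_nf; exact Real.exp_zero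
  have hQ3 : 3 * (geoL ζ K L).R' * Q ≤ 1 := by
    rw [hR']
    have := Real.exp_pos (-99 * ζ * L)
    nlinarith
  have hQR : (0 : ℝ) < Q → 3 * (geoL ζ K L).R' ≤ 1 / (Q : ℝ) := by
    intro h
    rw [le_div_iff₀ h]; exact hQ3
  have hdead : ∀ i : Fin (Q * Q), P {ω | rstate (geoL ζ K L) (JA_o Q i) (nL ζ γA L)
      (walk 0 (fun k => Y k ω)) N = none} ≤ ENNReal.ofReal (Real.exp (-10 * L)) := by
    intro i
    have hQp : 0 < Q := by
      have := i.2
      rcases Nat.eq_zero_or_pos (Q * Q) with h | h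
      · omega
      · exact Nat.pos_of_mul_pos_right h
    have hQp' : (0 : ℝ) < Q := by exact_mod_cast hQp
    refine hD Y hY (JA_o Q i) 0 ?_ N hN
    have h1 := JA_start Q i
    have h2 : 1 / (2 * Q : ℝ) = (1 / Q) / 2 := by rw [div_div, mul_comm]
    rw [h2] at h1
    have h3 := hQR hQp'
    have h4 : 0 < (geoL ζ K L).R' := Real.exp_pos _
    linarith
  have hQpos : (0 : ℝ) < Q := by
    by_contra hc
    have h0 : (Q : ℝ) = 0 := le_antisymm (not_lt.1 hc) (Nat.cast_nonneg _)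
    have h00 : Q = 0 := by exact_mod_cast h0
    rw [h00] at hnum
    simp only [Nat.cast_zero, mul_zero, zero_mul, neg_zero, Real.exp_zero,
      zero_add] at hnum
    have h1 : Real.exp (-4 * L) < 1 := Real.exp_lt_one_iff.2 (by linarith)
    linarith
  have hmain := JA_main (geoL ζ K L) hOK hν hY Q (hQR hQpos) (nL ζ γA L) N
    (ENNReal.ofReal (Real.exp (-10 * L))) hdead
  refine hmain.trans ?_
  have hVb := hV _ hν
  have hx1 : Real.exp (-10 * ζ * L) ≤ 1 := Real.exp_le_one_iff.2 (by nlinarith)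
  have hpow : (Vv (geoL ζ K L) (stepLaw (pδ L) (ph L)) (nL ζ γA L) Finset.univ) ^ (Q * Q) ≤
      ENNReal.ofReal (Real.exp (-(Real.exp (-10 * ζ * L) * ((Q * Q : ℕ) : ℝ)))) := by
    calc (Vv (geoL ζ K L) (stepLaw (pδ L) (ph L)) (nL ζ γA L) Finset.univ) ^ (Q * Q)
        ≤ (ENNReal.ofReal (1 - Real.exp (-10 * ζ * L))) ^ (Q * Q) :=
          pow_le_pow_left' hVb _
      _ = ENNReal.ofReal ((1 - Real.exp (-10 * ζ * L)) ^ (Q * Q)) :=
          (ENNReal.ofReal_pow (by linarith) _).symm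
      _ ≤ _ := by
          refine ENNReal.ofReal_le_ofReal ?_
          calc (1 - Real.exp (-10 * ζ * L)) ^ (Q * Q)
              ≤ (Real.exp (-Real.exp (-10 * ζ * L))) ^ (Q * Q) := by
                refine pow_le_pow_left₀ (by linarith) ?_ _
                have := Real.add_one_le_exp (-Real.exp (-10 * ζ * L))
                linarith
            _ = _ := by rw [← Real.exp_nat_mul]; ring_nf
  calc ((Q * Q : ℕ) : ℝ≥0∞) * ENNReal.ofReal (Real.exp (-10 * L)) +
        (Vv (geoL ζ K L) (stepLaw (pδ L) (ph L)) (nL ζ γA L) Finset.univ) ^ (Q * Q)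
      ≤ ENNReal.ofReal (((Q * Q : ℕ) : ℝ) * Real.exp (-10 * L)) +
        ENNReal.ofReal (Real.exp (-(Real.exp (-10 * ζ * L) * ((Q * Q : ℕ) : ℝ)))) := by
        refine add_le_add (le_of_eq ?_) hpow
        rw [ENNReal.ofReal_mul (Nat.cast_nonneg _), ENNReal.ofReal_natCast]
    _ = ENNReal.ofReal (((Q * Q : ℕ) : ℝ) * Real.exp (-10 * L) +
        Real.exp (-(Real.exp (-10 * ζ * L) * ((Q * Q : ℕ) : ℝ)))) :=
        (ENNReal.ofReal_add (by positivity) (by positivity)).symm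
    _ ≤ _ := ENNReal.ofReal_le_ofReal hnum

end Pool.Agent.helper32.EB
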