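import Pool.Agent.helper32.BT.PE
import Pool.Agent.helper32.BT.JA
import Pool.Agent.helper18.BT.HB
import Pool.Agent.helper97.BT.VB

open MeasureTheory ProbabilityTheory Filter Topology
open scoped ENNReal NNReal

namespace Pool.Agent.helper32.EB

theorem JB_sq_le (L : ℝ) (hL : 1 ≤ L) (c : ℝ) (hc : c ≤ 2) : c * L ^ 2 / Real.pi * Real.exp (3 * L) ≤
    Real.exp (10 * L) := by
  have hpi : 3 < Real.pi := Real.pi_gt_three
  have h1 : c * L ^ 2 / Real.pi ≤ L ^ 2 := by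
    rw [div_le_iff₀ (by linarith)]
    nlinarith [sq_nonneg L]
  have h2 : L ≤ Real.exp L := by linarith [Real.add_one_le_exp L]
  have h3 : L ^ 2 ≤ Real.exp (7 * L) := by
    calc L ^ 2 ≤ (Real.exp L) ^ 2 := by gcongr
      _ = Real.exp (2 * L) := by rw [← Real.exp_nat_mul]; norm_num
      _ ≤ Real.exp (7 * L) := Real.exp_le_exp.2 (by linarith)
  calc c * L ^ 2 / Real.pi * Real.exp (3 * L) ≤ Real.exp (7 * L) * Real.exp (3 * L) := by
        gcongr; exact h1.trans h3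
    _ = Real.exp (10 * L) := by rw [← Real.exp_add]; ring_nf

/-! ### JB -/

theorem ub_tail {Ω : Type*} [MeasurableSpace Ω] {P : Measure Ω} {B₁ B₂ : ℝ≥0 → Ω → ℝ}
    (hB : IsBM2 P B₁ B₂) (γ : ℝ) (hγ : 0 < γ) (hγ1 : γ < 1) : ∃ L0 : ℝ, ∀ L ≥ L0, ∀ s : ℝ,
      s ≤ γ * L ^ 2 / Real.pi →
      P {ω | ∀ x : ℂ, ∃ t : ℝ≥0, (t : ℝ) ≤ s ∧ ‖disp (bm B₁ B₂ t ω - x)‖ < Real.exp (-L)} ≤
        ENNReal.ofReal (Real.exp (-3 * L)) := by
  have := hB.prob
  obtain ⟨L1, hL1⟩ := bm_reduce hB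
  obtain ⟨L2, hL2⟩ := eventually_atTop.1 (walk_cover_small (P := P) γ hγ hγ1)
  refine ⟨max (max L1 L2) 1, fun L hL s hs => ?_⟩
  have hLL1 : L1 ≤ L := (le_max_left _ _).trans ((le_max_left _ _).trans hL)
  have hLL2 : L2 ≤ L := (le_max_right _ _).trans ((le_max_left _ _).trans hL)
  have hL1' : 1 ≤ L := (le_max_right _ _).trans hL
  have hpi := Real.pi_pos
  set N : ℕ := ⌊s * Real.exp (3 * L)⌋₊ with hN
  have hb : 0 ≤ γ * L ^ 2 / Real.pi := by positivity
  have hNle : (N : ℝ) ≤ γ * L ^ 2 / Real.pi * Real.exp (3 * L) := by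
    by_cases h0 : 0 ≤ s * Real.exp (3 * L)
    · exact (Nat.floor_le h0).trans (by gcongr)
    · rw [hN, Nat.floor_of_nonpos (not_le.1 h0).le, Nat.cast_zero]; positivity
  obtain ⟨Y, E, hY, hE, hPE, hω⟩ := hL1 L hLL1 N (hNle.trans (JB_sq_le L hL1' γ (by linarith)))
  have hcov := hL2 L hLL2 Y hY N (by
    have : Real.exp (3 * L) * Real.exp (-3 * L) = 1 := by rw [← Real.exp_add]; simp
    calc (N : ℝ) * Real.exp (-3 * L) ≤ γ * L ^ 2 / Real.pi * Real.exp (3 * L) * Real.exp (-3 * L) := by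
          gcongr
      _ = γ * L ^ 2 / Real.pi := by rw [mul_assoc, this, mul_one]
      _ ≤ _ := by linarith)
  have hsub : {ω | ∀ x : ℂ, ∃ t : ℝ≥0, (t : ℝ) ≤ s ∧ ‖disp (bm B₁ B₂ t ω - x)‖ < Real.exp (-L)} ⊆
      E ∪ {ω | ∀ x : ℂ, ∃ k ≤ N, ‖disp (walk 0 (fun k => Y k ω) k - x)‖ ≤
        2 * Real.exp (-L)} := by
    intro ω hω1
    by_cases hωE : ω ∈ E
    · exact Or.inl hωE
    · refine Or.inr fun x => ?_
      obtain ⟨t, hts, htx⟩ := hω1 x
      have hkt : (⌊(t : ℝ) * Real.exp (3 * L)⌋₊ : ℝ) ≤ t * Real.exp (3 * L) :=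
        Nat.floor_le (by positivity)
      have hkt' : (t : ℝ) * Real.exp (3 * L) < ⌊(t : ℝ) * Real.exp (3 * L)⌋₊ + 1 :=
        Nat.lt_floor_add_one _
      have hexp : Real.exp (3 * L) * Real.exp (-3 * L) = 1 := by rw [← Real.exp_add]; simp
      have hk : ⌊(t : ℝ) * Real.exp (3 * L)⌋₊ ≤ N := Nat.floor_le_floor (by gcongr)
      refine ⟨_, hk, ?_⟩
      have h1 := (hω ω hωE).2 _ hk t (by
        calc (⌊(t : ℝ) * Real.exp (3 * L)⌋₊ : ℝ) * Real.exp (-3 * L)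
            ≤ t * Real.exp (3 * L) * Real.exp (-3 * L) := by gcongr
          _ = t := by rw [mul_assoc, hexp, mul_one]) (by
        calc (t : ℝ) = t * Real.exp (3 * L) * Real.exp (-3 * L) := by rw [mul_assoc, hexp, mul_one]
          _ ≤ _ := by gcongr)
      have h2 := disp_norm_add (bm B₁ B₂ t ω - x)
        (walk 0 (fun k => Y k ω) ⌊(t : ℝ) * Real.exp (3 * L)⌋₊ - bm B₁ B₂ t ω)
      rw [sub_add_sub_cancel'] at h2
      rw [norm_sub_rev] at h1
      have h3 := Real.exp_pos (-L)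
      linarith
  calc P _ ≤ P (E ∪ {ω | ∀ x : ℂ, ∃ k ≤ N, ‖disp (walk 0 (fun k => Y k ω) k - x)‖ ≤
        2 * Real.exp (-L)}) := measure_mono hsub
    _ ≤ ENNReal.ofReal (Real.exp (-5 * L)) + ENNReal.ofReal (Real.exp (-4 * L)) :=
        (measure_union_le _ _).trans (add_le_add hPE hcov)
    _ ≤ ENNReal.ofReal (Real.exp (-3 * L)) := by
        rw [← ENNReal.ofReal_add (Real.exp_pos _).le (Real.exp_pos _).le]
        apply ENNReal.ofReal_le_ofReal
        have h1 : Real.exp (-5 * L) ≤ Real.exp (-4 * L) := Real.exp_le_exp.2 (by linarith)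
        have h2 : Real.exp (-4 * L) = Real.exp (-3 * L) * Real.exp (-L) := by
          rw [← Real.exp_add]; ring_nf
        have h3 : Real.exp (-L) ≤ 1 / 2 := by
          rw [Real.exp_neg, ← one_div]
          exact one_div_le_one_div_of_le (by norm_num) (by linarith [Real.add_one_le_exp L])
        nlinarith [Real.exp_pos (-3 * L)]

/-! ### JC -/

theorem lb_prob {Ω : Type*} [MeasurableSpace Ω] {P : Measure Ω} {B₁ B₂ : ℝ≥0 → Ω → ℝ}
    (hB : IsBM2 P B₁ B₂) (γ : ℝ) (hγ : 1 < γ) : ∃ L0 : ℝ, ∀ L ≥ L0, ∀ s : ℝ,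
      γ * L ^ 2 / Real.pi ≤ s → ∃ F : Set Ω, MeasurableSet F ∧ ENNReal.ofReal (1 / 2) ≤ P F ∧
        ∀ ω ∈ F, Continuous (fun t => bm B₁ B₂ t ω) ∧
          ∀ x : ℂ, ∃ t : ℝ≥0, (t : ℝ) ≤ s ∧ ‖disp (bm B₁ B₂ t ω - x)‖ ≤ 3 * Real.exp (-L) := by
  have := hB.prob
  obtain ⟨L1, hL1⟩ := bm_reduce hB
  -- it suffices to treat `γ ≤ 2`
  have key : ∀ γ : ℝ, 1 < γ → γ ≤ 2 → ∃ L0 : ℝ, ∀ L ≥ L0, ∀ s : ℝ,
      γ * L ^ 2 / Real.pi ≤ s → ∃ F : Set Ω, MeasurableSet F ∧ ENNReal.ofReal (1 / 2) ≤ P F ∧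
        ∀ ω ∈ F, Continuous (fun t => bm B₁ B₂ t ω) ∧
          ∀ x : ℂ, ∃ t : ℝ≥0, (t : ℝ) ≤ s ∧
            ‖disp (bm B₁ B₂ t ω - x)‖ ≤ 3 * Real.exp (-L) := by
    intro γ hγ hγ2
    obtain ⟨L2, hL2⟩ := eventually_atTop.1 (walk_cover_big (P := P) γ hγ)
    refine ⟨max (max L1 L2) 1, fun L hL s hs => ?_⟩
    have hLL1 : L1 ≤ L := (le_max_left _ _).trans ((le_max_left _ _).trans hL)
    have hLL2 : L2 ≤ L := (le_max_right _ _).trans ((le_max_left _ _).trans hL)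
    have hL1' : 1 ≤ L := (le_max_right _ _).trans hL
    have hpi := Real.pi_pos
    have hexp : Real.exp (3 * L) * Real.exp (-3 * L) = 1 := by rw [← Real.exp_add]; simp
    have hb : 0 ≤ γ * L ^ 2 / Real.pi := by positivity
    set N : ℕ := ⌊γ * L ^ 2 / Real.pi * Real.exp (3 * L)⌋₊ with hN
    have hNle : (N : ℝ) ≤ γ * L ^ 2 / Real.pi * Real.exp (3 * L) := Nat.floor_le (by positivity)
    have hNge : γ * L ^ 2 / Real.pi * Real.exp (3 * L) < N + 1 := Nat.lt_floor_add_one _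
    obtain ⟨Y, E, hY, hE, hPE, hω⟩ := hL1 L hLL1 N (hNle.trans (JB_sq_le L hL1' γ hγ2))
    obtain ⟨F, hF, hPF, hFω⟩ := hL2 L hLL2 Y hY N (by
      have h1 : Real.exp (-3 * L) ≤ 1 := by
        rw [Real.exp_le_one_iff]; linarith
      calc γ * L ^ 2 / Real.pi = γ * L ^ 2 / Real.pi * Real.exp (3 * L) * Real.exp (-3 * L) := by
            rw [mul_assoc, hexp, mul_one]
        _ ≤ (N + 1) * Real.exp (-3 * L) := by gcongr
        _ ≤ N * Real.exp (-3 * L) + 1 := by linarith)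
    refine ⟨F \ E, hF.diff hE, ?_, ?_⟩
    · have h1 : P F ≤ P (F \ E) + P E := by
        calc P F ≤ P ((F \ E) ∪ E) := measure_mono (by intro a ha; by_cases h : a ∈ E
                                                       · exact Or.inr h
                                                       · exact Or.inl ⟨ha, h⟩)
          _ ≤ _ := measure_union_le _ _
      have h2 : Real.exp (-5 * L) ≤ 1 / 4 := by
        have h3 : (4 : ℝ) ≤ Real.exp (5 * L) := by linarith [Real.add_one_le_exp (5 * L)]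
        rw [show -5 * L = -(5 * L) by ring, Real.exp_neg, ← one_div]
        exact one_div_le_one_div_of_le (by norm_num) h3
      have h4 : ENNReal.ofReal (3 / 4) ≤ P (F \ E) + ENNReal.ofReal (1 / 4) :=
        hPF.trans (h1.trans (add_le_add le_rfl (hPE.trans (ENNReal.ofReal_le_ofReal h2))))
      have h5 : ENNReal.ofReal (3 / 4) = ENNReal.ofReal (1 / 2) + ENNReal.ofReal (1 / 4) := by
        rw [← ENNReal.ofReal_add (by norm_num) (by norm_num)]; norm_num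
      rw [h5] at h4
      exact (ENNReal.add_le_add_iff_right ENNReal.ofReal_ne_top).1 h4
    · rintro ω ⟨hωF, hωE⟩
      refine ⟨(hω ω hωE).1, fun x => ?_⟩
      obtain ⟨k, hkN, hk⟩ := hFω ω hωF x
      let t : ℝ≥0 := ⟨(k : ℝ) * Real.exp (-3 * L), by positivity⟩
      have ht : (t : ℝ) = (k : ℝ) * Real.exp (-3 * L) := rfl
      refine ⟨t, ?_, ?_⟩
      · rw [ht]
        calc (k : ℝ) * Real.exp (-3 * L) ≤ N * Real.exp (-3 * L) := by
              have : (k : ℝ) ≤ N := by exact_mod_cast hkN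
              gcongr
          _ ≤ γ * L ^ 2 / Real.pi * Real.exp (3 * L) * Real.exp (-3 * L) := by gcongr
          _ = γ * L ^ 2 / Real.pi := by rw [mul_assoc, hexp, mul_one]
          _ ≤ s := hs
      · have h1 := (hω ω hωE).2 k hkN t ht.ge (by rw [ht]; have := Real.exp_pos (-3 * L); linarith)
        have h2 := disp_norm_add (walk 0 (fun k => Y k ω) k - x)
          (bm B₁ B₂ t ω - walk 0 (fun k => Y k ω) k)
        rw [sub_add_sub_cancel'] at h2
        have h3 := Real.exp_pos (-L)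
        linarith
  obtain ⟨L0, h⟩ := key (min γ 2) (lt_min hγ (by norm_num)) (min_le_right _ _)
  refine ⟨L0, fun L hL s hs => h L hL s (le_trans ?_ hs)⟩
  have hpi := Real.pi_pos
  gcongr
  exact min_le_left _ _

end Pool.Agent.helper32.EB
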