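import Pool.Agent.helper32.BT.JB
import Pool.Agent.helper18.BT.EA
import Pool.Agent.helper55.BT.ED

open MeasureTheory ProbabilityTheory Filter Topology
open scoped ENNReal NNReal

namespace Pool.Agent.helper32.EB

/-- upper bound for the expectation -/
theorem JD_upper {Ω : Type*} [MeasurableSpace Ω] {P : Measure Ω} {B₁ B₂ : ℝ≥0 → Ω → ℝ}
    (hB : IsBM2 P B₁ B₂) (γ : ℝ) (hγ : 0 < γ) (hγ1 : γ < 1) : ∃ C : ℝ, 0 < C ∧ ∀ᶠ s : ℝ in atTop,
      ∫⁻ ω, lam1 (trace B₁ B₂ s ω) ∂P ≤ ENNReal.ofReal (C * Real.exp (2 * √(Real.pi / γ) * √s)) := by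
  have := hB.prob
  obtain ⟨L0, hL0⟩ := ub_tail hB γ hγ hγ1
  obtain ⟨C, hC, hlam⟩ := lam1_le
  refine ⟨C * (1 + 2 * Real.exp 2), by positivity, ?_⟩
  have hlim : Tendsto (fun s : ℝ => √(Real.pi / γ) * √s) atTop atTop :=
    (Real.tendsto_sqrt_atTop).const_mul_atTop (Real.sqrt_pos.2 (by positivity))
  filter_upwards [eventually_ge_atTop 0, hlim.eventually_ge_atTop (max L0 2)] with s hs hLs
  set L : ℝ := √(Real.pi / γ) * √s with hL
  have hL0' : L0 ≤ L := (le_max_left _ _).trans hLs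
  have hL2 : 2 ≤ L := (le_max_right _ _).trans hLs
  have hs' : s = γ * L ^ 2 / Real.pi := by
    rw [hL, mul_pow, Real.sq_sqrt (by positivity), Real.sq_sqrt hs]
    field_simp
  let A : ℕ → Set Ω := fun j => {ω | ∀ x : ℂ, ∃ t : ℝ≥0, (t : ℝ) ≤ s ∧
    ‖disp (bm B₁ B₂ t ω - x)‖ < Real.exp (-(L + j))}
  have hPA : ∀ j, P (A j) ≤ ENNReal.ofReal (Real.exp (-3 * (L + j))) := by
    intro j
    refine hL0 (L + j) (by have : (0 : ℝ) ≤ j := Nat.cast_nonneg j
                           linarith) s ?_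
    rw [hs']
    have : (0 : ℝ) ≤ j := Nat.cast_nonneg j
    gcongr
    linarith
  have hnot : ∀ j ω, ω ∉ A j → lam1 (trace B₁ B₂ s ω) ≤
      ENNReal.ofReal (C * Real.exp (2 * (L + j))) := by
    intro j ω hω
    simp only [A, Set.mem_ofPred_eq, not_forall, not_exists, not_and, not_lt] at hω
    obtain ⟨x, hx⟩ := hω
    have h1 := hlam (trace B₁ B₂ s ω) x (Real.exp (-(L + j))) (Real.exp_pos _) ?_ ?_
    · refine h1.trans (le_of_eq ?_)
      congr 1
      rw [div_eq_mul_inv, ← Real.exp_nat_mul, ← Real.exp_neg]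
      congr 2
      push_cast; ring
    · have h2 : Real.exp (-(L + j)) ≤ Real.exp (-2) := by
        apply Real.exp_le_exp.2
        have : (0 : ℝ) ≤ j := Nat.cast_nonneg j
        linarith
      refine h2.trans ?_
      have h3 : (1 + 1 : ℝ) ≤ Real.exp 1 := Real.add_one_le_exp 1
      have h4 : Real.exp (-2) = 1 / (Real.exp 1 * Real.exp 1) := by
        rw [← Real.exp_add, Real.exp_neg, one_div]; norm_num
      rw [h4]
      apply one_div_le_one_div_of_le (by norm_num)
      nlinarith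
    · rintro z ⟨t, ht, rfl⟩
      exact hx t ht
  have hpt : ∀ ω, lam1 (trace B₁ B₂ s ω) ≤ ENNReal.ofReal (C * Real.exp (2 * L)) +
      ∑' j : ℕ, ENNReal.ofReal (C * Real.exp (2 * (L + j + 1))) *
        (toMeasurable P (A j)).indicator 1 ω := by
    intro ω
    by_cases h0 : ω ∉ A 0
    · have := hnot 0 ω h0
      simp only [Nat.cast_zero, add_zero] at this
      exact this.trans le_self_add
    · rw [not_not] at h0
      by_cases hall : ∀ j, ω ∈ A j
      · have : ∑' j : ℕ, ENNReal.ofReal (C * Real.exp (2 * (L + j + 1))) *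
            (toMeasurable P (A j)).indicator (1 : Ω → ℝ≥0∞) ω = ⊤ := by
          refine top_le_iff.1 ?_
          rw [← ENNReal.tsum_const_eq_top_of_ne_zero (α := ℕ)
            (c := ENNReal.ofReal C) (ENNReal.ofReal_pos.2 hC).ne']
          refine ENNReal.tsum_le_tsum fun j => ?_
          rw [Set.indicator_of_mem (subset_toMeasurable P _ (hall j)), Pi.one_apply, mul_one]
          apply ENNReal.ofReal_le_ofReal
          have h1 : 1 ≤ Real.exp (2 * (L + j + 1)) := by
            apply Real.one_le_exp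
            have : (0 : ℝ) ≤ j := Nat.cast_nonneg j
            linarith
          nlinarith
        rw [this, add_top]; exact le_top
      · push Not at hall
        classical
        let j := Nat.find hall
        have hj : ω ∉ A j := Nat.find_spec hall
        have hj0 : j ≠ 0 := by
          intro h; rw [h] at hj; exact hj h0
        obtain ⟨i, hi⟩ := Nat.exists_eq_succ_of_ne_zero hj0
        have hiA : ω ∈ A i := by
          by_contra hc
          have := Nat.find_min' hall hc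
          change j ≤ i at this
          omega
        have h1 := hnot j ω hj
        refine le_trans ?_ le_add_self
        refine le_trans ?_ (ENNReal.le_tsum i)
        rw [Set.indicator_of_mem (subset_toMeasurable P _ hiA), Pi.one_apply, mul_one]
        refine h1.trans (le_of_eq ?_)
        rw [hi]; push_cast; ring_nf
  calc ∫⁻ ω, lam1 (trace B₁ B₂ s ω) ∂P
      ≤ ∫⁻ ω, (ENNReal.ofReal (C * Real.exp (2 * L)) +
          ∑' j : ℕ, ENNReal.ofReal (C * Real.exp (2 * (L + j + 1))) *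
            (toMeasurable P (A j)).indicator 1 ω) ∂P := lintegral_mono hpt
    _ = ENNReal.ofReal (C * Real.exp (2 * L)) +
          ∑' j : ℕ, ENNReal.ofReal (C * Real.exp (2 * (L + j + 1))) * P (A j) := by
        rw [lintegral_add_left measurable_const, lintegral_const, measure_univ, mul_one,
          lintegral_tsum]
        · congr 1
          refine tsum_congr fun j => ?_
          rw [lintegral_const_mul, lintegral_indicator_one (measurableSet_toMeasurable _ _),
            measure_toMeasurable]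
          exact measurable_one.indicator (measurableSet_toMeasurable _ _)
        · intro j
          exact (measurable_const.mul
            (measurable_one.indicator (measurableSet_toMeasurable _ _))).aemeasurable
    _ ≤ ENNReal.ofReal (C * Real.exp (2 * L)) +
          ∑' j : ℕ, ENNReal.ofReal (C * Real.exp (2 * L) * (Real.exp 2 * Real.exp (-1) ^ j)) := by
        refine add_le_add le_rfl (ENNReal.tsum_le_tsum fun j => ?_)
        refine (mul_le_mul' le_rfl (hPA j)).trans ?_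
        rw [← ENNReal.ofReal_mul (by positivity)]
        apply ENNReal.ofReal_le_ofReal
        rw [mul_assoc, mul_assoc, ← Real.exp_add, ← Real.exp_nat_mul, ← Real.exp_add,
          ← Real.exp_add]
        refine mul_le_mul_of_nonneg_left (Real.exp_le_exp.2 ?_) hC.le
        have : (0 : ℝ) ≤ j := Nat.cast_nonneg j
        linarith
    _ ≤ ENNReal.ofReal (C * (1 + 2 * Real.exp 2) * Real.exp (2 * √(Real.pi / γ) * √s)) := by
        have hq : Real.exp (-1) ≤ 1 / 2 := by
          rw [Real.exp_neg, ← one_div]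
          exact one_div_le_one_div_of_le (by norm_num) (by linarith [Real.add_one_le_exp (1 : ℝ)])
        have hsum : Summable (fun j : ℕ => C * Real.exp (2 * L) * (Real.exp 2 * Real.exp (-1) ^ j)) :=
          ((summable_geometric_of_lt_one (Real.exp_pos _).le
            (lt_of_le_of_lt hq (by norm_num))).mul_left _).mul_left _
        rw [← ENNReal.ofReal_tsum_of_nonneg (fun j => by positivity) hsum,
          ← ENNReal.ofReal_add (by positivity) (tsum_nonneg fun j => by positivity)]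
        apply ENNReal.ofReal_le_ofReal
        rw [tsum_mul_left, tsum_mul_left, tsum_geometric_of_lt_one (Real.exp_pos _).le
            (lt_of_le_of_lt hq (by norm_num))]
        have h1 : (1 - Real.exp (-1))⁻¹ ≤ 2 := by
          rw [inv_le_comm₀ (by linarith) (by norm_num)]; linarith
        have h2 : 2 * √(Real.pi / γ) * √s = 2 * L := by rw [hL]; ring
        rw [h2]
        have h3 : C * Real.exp (2 * L) * (Real.exp 2 * (1 - Real.exp (-1))⁻¹) ≤
            C * Real.exp (2 * L) * (Real.exp 2 * 2) := by gcongr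
        linarith

/-- lower bound for the expectation -/
theorem JD_lower {Ω : Type*} [MeasurableSpace Ω] {P : Measure Ω} {B₁ B₂ : ℝ≥0 → Ω → ℝ}
    (hB : IsBM2 P B₁ B₂) (γ : ℝ) (hγ : 1 < γ) : ∃ c : ℝ, 0 < c ∧ ∀ᶠ s : ℝ in atTop,
      ENNReal.ofReal (c * Real.exp (2 * √(Real.pi / γ) * √s)) ≤
        ∫⁻ ω, lam1 (trace B₁ B₂ s ω) ∂P := by
  have := hB.prob
  obtain ⟨L0, hL0⟩ := lb_prob hB γ hγ
  obtain ⟨c, hc, hlam⟩ := lam1_ge
  refine ⟨c / 9 * (1 / 2), by positivity, ?_⟩
  have hlim : Tendsto (fun s : ℝ => √(Real.pi / γ) * √s) atTop atTop :=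
    (Real.tendsto_sqrt_atTop).const_mul_atTop (Real.sqrt_pos.2 (by positivity))
  filter_upwards [eventually_ge_atTop 0, hlim.eventually_ge_atTop (max L0 300)] with s hs hLs
  set L : ℝ := √(Real.pi / γ) * √s with hL
  have hL0' : L0 ≤ L := (le_max_left _ _).trans hLs
  have hL2 : 300 ≤ L := (le_max_right _ _).trans hLs
  have hs' : s = γ * L ^ 2 / Real.pi := by
    rw [hL, mul_pow, Real.sq_sqrt (by positivity), Real.sq_sqrt hs]
    field_simp
  obtain ⟨F, hF, hPF, hFω⟩ := hL0 L hL0' s hs'.ge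
  have hsmall : 3 * Real.exp (-L) ≤ 1 / 100 := by
    have h1 : L + 1 ≤ Real.exp L := Real.add_one_le_exp L
    have h2 : Real.exp (-L) ≤ 1 / 300 := by
      rw [Real.exp_neg, ← one_div]
      exact one_div_le_one_div_of_le (by norm_num) (by linarith)
    linarith
  have hlow : ∀ ω ∈ F, ENNReal.ofReal (c / 9 * Real.exp (2 * L)) ≤ lam1 (trace B₁ B₂ s ω) := by
    intro ω hω
    obtain ⟨hcont, hd⟩ := hFω ω hω
    have h1 := hlam (fun t => bm B₁ B₂ t ω) hcont s (3 * Real.exp (-L)) (by positivity) hsmall hd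
    refine le_trans (le_of_eq ?_) h1
    congr 1
    rw [mul_pow, ← Real.exp_nat_mul]
    rw [show (2 : ℝ) * L = -((2 : ℕ) * -L) by push_cast; ring, Real.exp_neg]
    field_simp
    norm_num
  calc ENNReal.ofReal (c / 9 * (1 / 2) * Real.exp (2 * √(Real.pi / γ) * √s))
      = ENNReal.ofReal (c / 9 * Real.exp (2 * L)) * ENNReal.ofReal (1 / 2) := by
        rw [← ENNReal.ofReal_mul (by positivity)]
        congr 1
        rw [hL]; ring_nf
    _ ≤ ENNReal.ofReal (c / 9 * Real.exp (2 * L)) * P F := mul_le_mul' le_rfl hPF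
    _ = ∫⁻ _ in F, ENNReal.ofReal (c / 9 * Real.exp (2 * L)) ∂P := by
        rw [setLIntegral_const]
    _ ≤ ∫⁻ ω in F, lam1 (trace B₁ B₂ s ω) ∂P := setLIntegral_mono' hF hlow
    _ ≤ ∫⁻ ω, lam1 (trace B₁ B₂ s ω) ∂P := setLIntegral_le_lintegral _ _

theorem JD_lim (C c : ℝ) (hC : 0 < C) : Tendsto (fun s : ℝ => Real.log (C * Real.exp (c * √s)) / √s)
    atTop (𝓝 c) := by
  have h1 : ∀ᶠ s : ℝ in atTop, Real.log C * (√s)⁻¹ + c =
      Real.log (C * Real.exp (c * √s)) / √s := by
    filter_upwards [eventually_gt_atTop 0] with s hs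
    have : 0 < √s := Real.sqrt_pos.2 hs
    rw [Real.log_mul hC.ne' (Real.exp_pos _).ne', Real.log_exp]
    field_simp
  refine Tendsto.congr' h1 ?_
  have h2 : Tendsto (fun s : ℝ => (√s)⁻¹) atTop (𝓝 0) :=
    tendsto_inv_atTop_zero.comp Real.tendsto_sqrt_atTop
  simpa using (h2.const_mul (Real.log C)).add_const c

theorem main {Ω : Type*} [MeasurableSpace Ω] {P : Measure Ω} {B₁ B₂ : ℝ≥0 → Ω → ℝ}
    (hB : IsBM2 P B₁ B₂) :
    (∀ᶠ s : ℝ in atTop, ∫⁻ ω, lam1 (trace B₁ B₂ s ω) ∂P < ⊤) ∧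
    Tendsto (fun s : ℝ => Real.log (∫⁻ ω, lam1 (trace B₁ B₂ s ω) ∂P).toReal / √s) atTop
      (𝓝 (2 * √Real.pi)) := by
  have hpi := Real.pi_pos
  have hfin : ∀ᶠ s : ℝ in atTop, ∫⁻ ω, lam1 (trace B₁ B₂ s ω) ∂P < ⊤ := by
    obtain ⟨C, _, h⟩ := JD_upper hB (1 / 2) (by norm_num) (by norm_num)
    filter_upwards [h] with s hs
    exact lt_of_le_of_lt hs ENNReal.ofReal_lt_top
  refine ⟨hfin, ?_⟩
  have hup : ∀ γ : ℝ, 0 < γ → γ < 1 → ∃ C : ℝ, 0 < C ∧ ∀ᶠ s : ℝ in atTop,
      Real.log (∫⁻ ω, lam1 (trace B₁ B₂ s ω) ∂P).toReal / √s ≤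
        Real.log (C * Real.exp (2 * √(Real.pi / γ) * √s)) / √s := by
    intro γ h0 h1
    obtain ⟨C, hC, h⟩ := JD_upper hB γ h0 h1
    obtain ⟨c, hc, h'⟩ := JD_lower hB 2 (by norm_num)
    refine ⟨C, hC, ?_⟩
    filter_upwards [h, h', eventually_gt_atTop 0] with s hs hs' hs0
    have hpos : 0 < (∫⁻ ω, lam1 (trace B₁ B₂ s ω) ∂P).toReal := by
      refine ENNReal.toReal_pos ?_ (lt_of_le_of_lt hs ENNReal.ofReal_lt_top).ne
      exact (lt_of_lt_of_le (ENNReal.ofReal_pos.2 (by positivity)) hs').ne'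
    refine div_le_div_of_nonneg_right ?_ (Real.sqrt_nonneg _)
    refine Real.log_le_log hpos ?_
    exact ENNReal.toReal_le_of_le_ofReal (by positivity) hs
  have hlo : ∀ γ : ℝ, 1 < γ → ∃ c : ℝ, 0 < c ∧ ∀ᶠ s : ℝ in atTop,
      Real.log (c * Real.exp (2 * √(Real.pi / γ) * √s)) / √s ≤
      Real.log (∫⁻ ω, lam1 (trace B₁ B₂ s ω) ∂P).toReal / √s := by
    intro γ h1
    obtain ⟨c, hc, h⟩ := JD_lower hB γ h1
    refine ⟨c, hc, ?_⟩
    filter_upwards [h, hfin, eventually_gt_atTop 0] with s hs hs' hs0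
    refine div_le_div_of_nonneg_right ?_ (Real.sqrt_nonneg _)
    refine Real.log_le_log (by positivity) ?_
    exact (ENNReal.ofReal_le_iff_le_toReal hs'.ne).1 hs
  rw [tendsto_order]
  constructor
  · intro a ha
    obtain ⟨γ, hγ1, hγa⟩ : ∃ γ : ℝ, 1 < γ ∧ a < 2 * √(Real.pi / γ) := by
      have hc : ContinuousAt (fun γ : ℝ => 2 * √(Real.pi / γ)) 1 := by
        apply ContinuousAt.mul continuousAt_const
        apply Real.continuous_sqrt.continuousAt.comp
        exact continuousAt_const.div continuousAt_id one_ne_zero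
      have h2 : a < (fun γ : ℝ => 2 * √(Real.pi / γ)) 1 := by simpa using ha
      have h3 := hc.eventually (lt_mem_nhds h2)
      have h4 : ∀ᶠ γ in 𝓝[>] (1 : ℝ), a < 2 * √(Real.pi / γ) := nhdsWithin_le_nhds h3
      obtain ⟨γ, hγ, hγ'⟩ := (h4.and self_mem_nhdsWithin).exists
      exact ⟨γ, hγ', hγ⟩
    obtain ⟨c, hc, h⟩ := hlo γ hγ1
    have h5 := (tendsto_order.1 (JD_lim c (2 * √(Real.pi / γ)) hc)).1 a hγa
    filter_upwards [h, h5] with s hs hs'
    exact lt_of_lt_of_le hs' hs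
  · intro b hb
    obtain ⟨γ, hγ0, hγ1, hγb⟩ : ∃ γ : ℝ, 0 < γ ∧ γ < 1 ∧ 2 * √(Real.pi / γ) < b := by
      have hc : ContinuousAt (fun γ : ℝ => 2 * √(Real.pi / γ)) 1 := by
        apply ContinuousAt.mul continuousAt_const
        apply Real.continuous_sqrt.continuousAt.comp
        exact continuousAt_const.div continuousAt_id one_ne_zero
      have h2 : (fun γ : ℝ => 2 * √(Real.pi / γ)) 1 < b := by simpa using hb
      have h3 := hc.eventually (gt_mem_nhds h2)
      have h4 : ∀ᶠ γ in 𝓝[<] (1 : ℝ), 2 * √(Real.pi / γ) < b := nhdsWithin_le_nhds h3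
      have h5 : ∀ᶠ γ in 𝓝[<] (1 : ℝ), (0 : ℝ) < γ := nhdsWithin_le_nhds (lt_mem_nhds one_pos)
      obtain ⟨γ, ⟨hγ, hγ''⟩, hγ'⟩ := ((h4.and h5).and self_mem_nhdsWithin).exists
      exact ⟨γ, hγ'', hγ', hγ⟩
    obtain ⟨C, hC, h⟩ := hup γ hγ0 hγ1
    have h5 := (tendsto_order.1 (JD_lim C (2 * √(Real.pi / γ)) hC)).2 b hγb
    filter_upwards [h, h5] with s hs hs'
    exact lt_of_le_of_lt hs hs'

end Pool.Agent.helper32.EB
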