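import Pool.Agent.helper55.BT.PE0
import Pool.Agent.helper46.BT.PD

/-! # BT, module PE: comparison of Brownian motion with the walk (assembled from PE0 and PD) -/

open MeasureTheory ProbabilityTheory Filter Topology
open scoped ENNReal NNReal

namespace Pool.Agent.helper32.EB

theorem bm_reduce {Ω : Type*} [MeasurableSpace Ω] {P : Measure Ω} {B₁ B₂ : ℝ≥0 → Ω → ℝ}
    (hB : IsBM2 P B₁ B₂) : ∃ L0 : ℝ, ∀ L ≥ L0, ∀ N : ℕ, (N : ℝ) ≤ Real.exp (10 * L) →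
      ∃ (Y : ℕ → Ω → ℂ) (E : Set Ω), IID P (stepLaw (pδ L) (ph L)) Y ∧ MeasurableSet E ∧
        P E ≤ ENNReal.ofReal (Real.exp (-5 * L)) ∧
        ∀ ω, ω ∉ E → Continuous (fun t => bm B₁ B₂ t ω) ∧ ∀ k : ℕ, k ≤ N → ∀ t : ℝ≥0,
          (k : ℝ) * Real.exp (-3 * L) ≤ t → t ≤ ((k : ℝ) + 1) * Real.exp (-3 * L) →
          ‖bm B₁ B₂ t ω - walk 0 (fun j => Y j ω) k‖ ≤ Real.exp (-L) / 2 :=
  PE_reduce_of_osc hB (fun t0 δ hδ a ha => bm_osc hB t0 δ hδ a ha)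

end Pool.Agent.helper32.EB
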